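import Pool.Agent.Y128.CC.Fin

/-!
# The Tate conjecture for all powers of cyclic coverings of projective spaces with one node

Let `p` be an odd prime number and `X` a covering of the projective space of dimension `N ≥ 2` over a
number field `K` containing the roots of unity of order `p`, with the group of automorphisms generated
by `σ` of order `p`, branched along a smooth hypersurface `B` of degree `M`, where `p` divides `M`:
`X : y ^ p = F(x_0, ..., x_N)`, `F` homogeneous of degree `M`. All dimensions `N ≥ 2` and all degrees
`M` are allowed, except `N = 2`, `M = 3` (cubic surfaces, where all classes are algebraic); for
instance cyclic cubic threefolds and fourfolds, triple planes branched along curves of degree `3 e`,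
`e ≥ 2` (of general type for `e ≥ 3`, with geometric genus as large as one likes), `p`-fold coverings
of `ℙ^N` branched along hypersurfaces of degree `p e`. The cohomology of `X` is the one of the
projective space plus the dual of `V` in degree `N`. Suppose:

* `IsReflection`: at ONE place of `K` not dividing `2 p` the branch hypersurface `B` acquires exactly
  one ordinary double point, and the valuation of its discriminant is prime to `p` (then `X` has
  potentially good reduction there, and a generator of inertia acts as a complex reflection for
  the ring `ℤ[ζ_p]`: it maps a vanishing cycle `v` to `± σ ^ i v` with `i` prime to `p`, and `g x - x`
  is a combination of the `σ ^ j v` for all `x`);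
* `StronglyIrreducibleEigenspaces`: the eigenspaces of `σ` on `V` over the algebraic closure of `ℚ_ℓ`
  are irreducible for all subgroups of finite index of the Galois group (this holds for the generic
  covering, by the theorem of Deligne and Carlson-Toledo on the monodromy group, and therefore
  for all members of a family over `K` which are not in a thin set, and for each member of a family
  over a curve with full monodromy with finitely many exceptions over each extension of bounded
  degree);
* `NonscalarOnEigenspaces`: on each eigenspace some element of the Galois group (for instance one
  Frobenius element) acts such that no power of it is a scalar.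

Theorem: on all powers `X ^ n` all Tate classes, in all codimensions, are linear combinations of
products of pull-backs of the classes of the graphs of the automorphisms `σ ^ i` (and of hyperplane
sections). So the Tate conjecture holds for all powers of `X` in all codimensions. No semisimplicity
of the Galois representation is assumed. `CyclicCoverModule` collects the standard properties of `V`;
the only arithmetic ones are the numbers `coverHodge p N M j`: there is a Frobenius element, of a place
over a prime `q ≡ 1` modulo `p`, for which the end point of the Newton polygon on each eigenspace is
the one of the Hodge polygon.

Idea: `exists_Y`: for a group generated by the commutators of the reflection `g` with a normal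
subgroup `Δ` of finite index there is a nonscalar operator `Y` in its Lie algebra, obtained from the
additive functions of the eigenvalues and the logarithm of the unipotent part of one element
`F ∈ Δ`: on all spaces of forms the operator `x` with these eigenvalues is a polynomial in `F`, so
`g x g⁻¹ - x` kills the forms which are invariant under all `[g, t]`, `t ∈ Δ`. With the reflection one
gets a nilpotent operator of rank one on each eigenspace in the Lie algebra annihilating the Tate
classes, which therefore contains the product of the special linear Lie algebras of the eigenspaces
(one from each dual pair). What is left are the products of determinants of eigenspaces. The sums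
`∑ i h ^ (i, N - i)` over the Hodge numbers of the eigenspace with the number `j` are an affine
function of `j`, `0 < j < p`, with slope `(r - (-1) ^ N (N + 1)) / p ≠ 0` where `r` is the dimension
`coverRank N M`; so a product of determinants which is a power of the cyclotomic character gives a
relation for the numbers `2 j - p` and all their Galois conjugates, which has to be the trivial one
since `L(1, ψ) ≠ 0` for the odd Dirichlet characters modulo `p`. Finally the bilinear Tate forms are
the combinations of the `ω(σ ^ i u, v)`, and Tate classes in odd tensor powers are killed by the
operator which multiplies the eigenspaces by square roots of `-1` (it preserves all graph classes).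
-/

namespace Pool.Agent.Results.MP_938ce2_ag.CyclicCoverPowers

open Pool.Agent.Y128.SJ Pool.Agent.Y128.CC

/-- The Tate conjecture for all powers of cyclic coverings of projective spaces with one node. -/
theorem result (p N M : ℕ) [hp : Fact p.Prime] (hp2 : p ≠ 2) (hN : 2 ≤ N) (hpM : p ∣ M)
    (hM : 0 < M) (hNM : ¬(N = 2 ∧ M = 3)) {k V Γ : Type} [Field k] [CharZero k]
    [AddCommGroup V] [Module k V] [FiniteDimensional k V] [Group Γ]
    (ρ : Representation k Γ V) (χ : Γ →* k) (ω : V →ₗ[k] V →ₗ[k] k) (σ : Module.End k V)
    (hV : CyclicCoverModule p N M ρ χ ω σ) (hirr : StronglyIrreducibleEigenspaces p ρ σ)
    (hF : NonscalarOnEigenspaces p ρ σ) (hnode : ∃ g : Γ, IsReflection p σ (ρ g)) (n : ℕ)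
    (φ : MultilinearMap k (fun _ : Fin n => V) k) (hφ : IsTateTensor ρ χ N φ) :
    φ ∈ Submodule.span k (graphProducts ω σ n) := by
  obtain ⟨g, hg⟩ := hnode
  have h3 : 3 ≤ M := by
    have h1 := Nat.le_of_dvd hM hpM
    have h2 := hp.out.two_le
    omega
  exact main hp2 hN h3 hNM hV hirr hF hg φ hφ

end Pool.Agent.Results.MP_938ce2_ag.CyclicCoverPowers
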