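import Pool.Agent.Y128.CV.Fin
import Pool.Agent.Y574.CY.Eig
import Pool.Agent.Y907.CY.REF
import Pool.Agent.Y317.CY.Pair

/-!
# Tate classes on products of Jacobians of cyclic coverings of the projective line

Let `X_c`, `c` in a finite set, be curves `y ^ n = ∏ (x - a_t) ^ (m_t)` over a number field which
contains the roots of unity of order `n = n_c`, of any degrees `n_c ≥ 3`, prime or not, with any number
`r = r_c` of branch points except four, and any exponents `m_t`, nonzero modulo `n`, with sum zero
(one of the branch points may be the point at infinity). Let `V_c` be the rational Tate module of the
primitive part of the Jacobian of `X_c` (on which the automorphism `σ` of the curve acts with primitive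
roots of unity of order `n` as eigenvalues; the Jacobian is isogenous to the product of the
primitive parts of the quotients of `X_c`, curves of the same kind). For `r = 3` these are the factors
of the Jacobian of the Fermat curve of degree `n`. Suppose for the curves with `r ≥ 5`:

* `HasSmallEndomorphismRings`: the endomorphism algebra of the primitive part over the algebraic
  closure is generated by `σ` (then it is the cyclotomic field, and the theorem of Faltings
  translates this to the Tate module);
* `HasReflections`: there is one place, prime to `2 n`, at which all other curves have good reduction
  and exactly two branch points of `X_c` meet, `m_a + m_b` (if the two branch points are conjugate: twice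
  this number by `m_a = m_b`) times the multiplicity is prime to `n`. (Then inertia
  maps a vanishing cycle `v` to `± σ ^ i v`, with `i` prime to `n`.)

The theorem describes ALL Tate classes on all products of powers of the `X_c` (or their Jacobians):
they are linear combinations of products of Tate classes of degree two and determinants on
eigenspaces of `σ`, where the residues of all eigenspaces used in one product form a Hodge
character, that is, satisfy the condition of Shioda and Katsura for a Hodge class in the primitive
cohomology of the Fermat variety with this character.

The first ones are classes of divisors (Faltings). The determinant `⋀ ^ (r - 2)` of the eigenspace for
`j` is the part with the character `j m` of the cohomology of the Fermat variety of degree `n` and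
dimension `r - 2` (the symmetric power of the line is a projective space; the coverings
of the factors give the covering of the projective space branched over `r` hyperplanes in general
position, a quotient of the Fermat variety), and a product of Fermat motives is the Fermat motive for the
composed character (Shioda, Katsura). So the Tate conjecture holds for all products of powers of the
`X_c`, if the Hodge conjecture holds for the Fermat varieties of degree `level C`. It holds for prime
degrees, where the characters are paired (Ran, Shioda): the classes are those of linear subspaces.
So the Tate conjecture holds without further hypotheses for all products of these curves of prime
degree, with all exponents, although there are many Tate classes not generated by divisors (classes of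
Weil type on factors of dimension `(r - 2) (p - 1) / 2`, if the exponents are paired, and
the mixed classes of several curves with different exponents).

Idea of the proof: the inertia elements act as complex reflections on the eigenspaces, with different
eigenvalues on different ones. Together with one Frobenius element they give nilpotent operators of
rank one in the annihilator Lie algebra of the Tate classes, so this Lie algebra contains
the special linear Lie algebra of each eigenspace of dimension at least three, independently except
for duality and isomorphisms; the one-dimensional eigenspaces are not dual to themselves. The
invariants are products of pairings and determinants, and the valuations of the Frobenius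
determinants and their conjugates compute the Hodge numbers of the product of the determinants. For
prime degree the nonvanishing of `L(1, ψ)` for odd characters gives the paired characters.

The parts `t_EIG`, `t_REF`, `t_NUM`, `t_PAIR` are by helper574, helper907, helper884 and helper317.
-/

namespace Pool.Agent.Results.MP_938ce2_ag.CyclicCoverings

open Pool.Agent.Y128.CV

/-- Tate classes on products of Jacobians of cyclic coverings of the projective line (`k` is the field
of the `ℓ`-adic numbers, `Γ` the Galois group, `z` any primitive root of unity of order
`level C`). -/
theorem result {k Γ ι : Type} [Field k] [CharZero k] [Group Γ] [Fintype ι] [DecidableEq ι]
    {V : ι → Type} [∀ c, AddCommGroup (V c)] [∀ c, Module k (V c)]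
    [∀ c, FiniteDimensional k (V c)] (C : ι → Covering) (ρ : ∀ c, Representation k Γ (V c))
    (χ : Γ →* k) (ω : ∀ c, V c →ₗ[k] V c →ₗ[k] k) (σ : ∀ c, Module.End k (V c))
    (h : CyclicCoverings C ρ χ ω σ) (z : AlgebraicClosure k) (hz : IsPrimitiveRoot z (level C)) :
    TateClassesAreFermat C ρ χ σ z :=
  main Pool.Agent.Y574.CY.t_EIG (Pool.Agent.Y907.CY.t_REF Pool.Agent.Y574.CY.t_EIG) Nm.t_NUM
    Pool.Agent.Y317.CY.t_PAIR h hz

end Pool.Agent.Results.MP_938ce2_ag.CyclicCoverings
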