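import Mathlib
import Pool.Agent.Y224.TS.D8

/-!
# Tate classes on abelian varieties with simple factors of dimension at most three

Let `X` be an abelian variety over a number field all of whose simple abelian subvarieties (over the
complex numbers) have dimension at most three, those with complex multiplication being elliptic
curves (the dimension of `X` is arbitrary, and the simple factors may occur with any
multiplicities). Then all `ℓ`-adic Tate classes on `X` are `ℚ_ℓ`-linear combinations of elements of
the ring generated by the classes of divisors and by the pull-backs of the Weil classes on abelian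
fourfolds and on abelian sixfolds with trivial discriminant.
-/

namespace Pool.Agent.Results.MP_938ce2_ag.SmallSimpleFactors

open Pool.Agent.Y90.St Pool.Agent.Y224.TS.St TensorProduct

/-- **Tate classes** on an abelian variety `X` over a number field, given by the period map
`per : H → T` (`H = H_1(X, ℚ)`, `T` the tangent space), a polarization `E` and the representation
`ρ` of the Galois group `Γ` on the Tate module `ℚ_ℓ ⊗ H`, with the known properties of the Tate
module (`IsTateModule`; `χ` is the cyclotomic character, and `ℂ` is identified with an algebraic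
closure of `ℚ_ℓ`). If the simple abelian subvarieties of `X` over `ℂ` have dimension at most three
and those with complex multiplication are elliptic curves, then each Tate class `φ` of degree `2 m`
(an alternating form on the Tate module on which a subgroup of finite index acts through `χ ^ m`) is
a `ℚ_ℓ`-linear combination of elements of the ring generated by the Hodge classes of degree two and
the pull-backs of Weil classes on abelian fourfolds and on abelian sixfolds with trivial
discriminant. -/
theorem result {H T : Type} [AddCommGroup H] [Module ℚ H] [AddCommGroup T] [Module ℂ T]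
    (per : H →+ T) (hX : IsAV per) (hs : SmallSimple per) (E : H → H → ℚ)
    (hE : IsPolarization per E) (ℓ : ℕ) [Fact ℓ.Prime] [Algebra ℚ_[ℓ] ℂ]
    [Algebra.IsAlgebraic ℚ_[ℓ] ℂ] {Γ : Type} [Group Γ]
    (ρ : Representation ℚ_[ℓ] Γ (ℚ_[ℓ] ⊗[ℚ] H)) (χ : Γ →* ℚ_[ℓ])
    (hρ : IsTateModule per E ρ χ) {κ : Type} [Finite κ] {m : ℕ} (hκ : Nat.card κ = 2 * m)
    (φ : (ℚ_[ℓ] ⊗[ℚ] H) [⋀^κ]→ₗ[ℚ_[ℓ]] ℚ_[ℓ])
    (hφ : ∃ Δ : Subgroup Γ, Δ.FiniteIndex ∧ ∀ g ∈ Δ, ∀ v : κ → ℚ_[ℓ] ⊗[ℚ] H,
      φ (fun k => ρ g (v k)) = χ g ^ m * φ v) :
    ∃ (n : ℕ) (c : Fin n → ℚ_[ℓ]) (f : Fin n → (H [⋀^κ]→ₗ[ℚ] ℚ)),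
      (∀ j, WeilRing per κ (f j)) ∧
        ∀ v : κ → H, φ (fun k => 1 ⊗ₜ v k) = ∑ j, c j * ((f j v : ℚ) : ℚ_[ℓ]) :=
  Pool.Agent.Y224.TS.tate_ring hX hs hE hρ hκ φ hφ

end Pool.Agent.Results.MP_938ce2_ag.SmallSimpleFactors
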